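import Pool.Agent.Lib.MP_67d7ce_nt.Gr

/-! Function-field (Carlitz) model of the question whether `Li₃(e^i)` lies in the `ℚ(i)`-span of
`ζ(3)` and `L(3, χ)`. -/

namespace Pool.Agent.Results.MP_67d7ce_nt.CarlitzPolylog

variable (F : Type) [Field F] [Fintype F]

/-- `ι = X⁻¹` in `F((X))`; it satisfies `ι^(q-1) = -θ` and plays the role of `i`. -/
noncomputable def iota : LaurentSeries F := HahnSeries.single (-1) 1

/-- The variable `θ = -ι^(q-1)` of `A = F[θ]`, `q = |F|`. -/
noncomputable def theta : LaurentSeries F := -(iota F ^ (Fintype.card F - 1))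

/-- `D_i = ∏_{u < i} (θ^(q^i) - θ^(q^u))`. -/
noncomputable def carlitzD (i : ℕ) : LaurentSeries F :=
  ∏ u ∈ Finset.range i, (theta F ^ (Fintype.card F ^ i) - theta F ^ (Fintype.card F ^ u))

/-- `ℓ_d = ∏_{1 ≤ j ≤ d} (θ - θ^(q^j))`. -/
noncomputable def carlitzL (d : ℕ) : LaurentSeries F :=
  ∏ j ∈ Finset.range d, (theta F - theta F ^ (Fintype.card F ^ (j + 1)))

/-- The Carlitz exponential `e(z) = ∑_i z^(q^i) / D_i`. -/
noncomputable def carlitzExp (z : LaurentSeries F) : LaurentSeries F :=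
  ∑' i : ℕ, z ^ (Fintype.card F ^ i) / carlitzD F i

/-- The Carlitz polylogarithm `Li_n(z) = ∑_d z^(q^d) / ℓ_d^n`. -/
noncomputable def polylog (n : ℕ) (z : LaurentSeries F) : LaurentSeries F :=
  ∑' d : ℕ, z ^ (Fintype.card F ^ d) / carlitzL F d ^ n

/-- The value at `x` of the monic polynomial of degree `d` with lower coefficients `f`. -/
noncomputable def monicAt {R : Type} [CommRing R] [Algebra F R] (x : R) (d : ℕ) (f : Fin d → F) :
    R :=
  x ^ d + ∑ i : Fin d, algebraMap F R (f i) * x ^ (i : ℕ)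

/-- The Carlitz zeta value `ζ(n) = ∑_{a monic} 1 / a^n`, summed by degree. -/
noncomputable def zetaVal (n : ℕ) : LaurentSeries F :=
  ∑' d : ℕ, ∑ f : Fin d → F, 1 / monicAt F (theta F) d f ^ n

/-- The Goss value `L(n, χ) = ∑_{a monic} χ(a) / a^n` for the character `χ(a) = a(c)^n` of
`F[θ]` modulo `θ - c`, summed by degree. -/
noncomputable def lVal (n : ℕ) (c : F) : LaurentSeries F :=
  ∑' d : ℕ, ∑ f : Fin d → F,
    algebraMap F (LaurentSeries F) (monicAt F c d f ^ n) / monicAt F (theta F) d f ^ n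

theorem result (n : ℕ) (hn : 2 ≤ n) (hq : n + 5 ≤ Fintype.card F) (c : F)
    (s : LaurentSeries F) (hs : s ≠ 0)
    (hi : ∀ m : ℤ, s.coeff m ≠ 0 → ((Fintype.card F : ℤ) - 1) ∣ m + 1) :
    polylog F n (carlitzExp F s) - s ∉
      Submodule.span (IntermediateField.adjoin F ({iota F} : Set (LaurentSeries F)))
        ({1, zetaVal F n, lVal F n c} : Set (LaurentSeries F)) :=
  (Pool.Agent.PL.final hn hq c hs hi).2

/-- The four series converge. -/
theorem converge (n : ℕ) (hn : 2 ≤ n) (hq : n + 5 ≤ Fintype.card F) (c : F)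
    (s : LaurentSeries F) (hs : s ≠ 0)
    (hi : ∀ m : ℤ, s.coeff m ≠ 0 → ((Fintype.card F : ℤ) - 1) ∣ m + 1) :
    (Summable fun i : ℕ => s ^ (Fintype.card F ^ i) / carlitzD F i) ∧
    (Summable fun d : ℕ => carlitzExp F s ^ (Fintype.card F ^ d) / carlitzL F d ^ n) ∧
    (Summable fun d : ℕ => ∑ f : Fin d → F, 1 / monicAt F (theta F) d f ^ n) ∧
    (Summable fun d : ℕ => ∑ f : Fin d → F,
      algebraMap F (LaurentSeries F) (monicAt F c d f ^ n) / monicAt F (theta F) d f ^ n) := by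
  have h1 : (2 : ℤ) ≤ n := by exact_mod_cast hn
  have h2 : (1 : ℤ) ≤ Fintype.card F := by exact_mod_cast Fintype.card_pos
  refine ⟨Pool.Agent.PL.summable_ex s, Pool.Agent.PL.summable_Li
    ((Pool.Agent.PL.final hn hq c hs hi).1.trans (WithZero.exp_le_exp.2 (by nlinarith))), ?_,
    Pool.Agent.PL.summable_Lv (by omega) c⟩
  refine (Pool.Agent.PL.summable_Li (F := F) (n := n) (z := 1) ?_).congr fun d => ?_
  · rw [map_one, ← WithZero.exp_zero, WithZero.exp_le_exp]; nlinarith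
  · rw [one_pow]
    exact (Pool.Agent.PL.sum_mon Pool.Agent.PL.lg_ne Pool.Agent.PL.Dg_ne (by omega) (by omega)
      d).symm

end Pool.Agent.Results.MP_67d7ce_nt.CarlitzPolylog
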